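import Pool.Agent.Helper11.TW.Descent

/-!
# Descent on the norm one torus `x ^ 2 - d y ^ 2 = N ^ 2` at the primes dividing `d`

`(x - N) (x + N) = d y ^ 2`; a prime `r ∣ d` outside `B` divides exactly one factor; `τ r = true` iff it
divides `x - N`.
-/

set_option autoImplicit false

namespace Pool.Agent.Helper36.LV

open Pool.Agent.Helper11.TW

/-- the four factors `x - N`, `x + N`, `1`, `1` -/
def fac (x N : ℤ) : Option (Fin 3) → ℤ
  | none => x - N
  | some 0 => x + N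
  | some 1 => 1
  | some 2 => 1

theorem prod_fac (x N : ℤ) : ∏ t, fac x N t = x ^ 2 - N ^ 2 := by
  rw [Fintype.prod_option, Fin.prod_univ_three]
  simp only [fac]
  ring

theorem fac_unique {B : ℕ} (h2 : 2 ∣ B) {x N : ℤ} (hN : ∀ r : ℕ, r.Prime → (r : ℤ) ∣ N → r ∣ B)
    {r : ℕ} (hr : r.Prime) (hrB : ¬ r ∣ B) {t t' : Option (Fin 3)}
    (h : (r : ℤ) ∣ fac x N t) (h' : (r : ℤ) ∣ fac x N t') : t = t' := by
  have hrp : Prime (r : ℤ) := Nat.prime_iff_prime_int.1 hr
  have hone : ¬ (r : ℤ) ∣ 1 := fun h => hrp.not_dvd_one h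
  have hboth : (r : ℤ) ∣ x - N → (r : ℤ) ∣ x + N → False := by
    intro h1 h3
    have h4 : (r : ℤ) ∣ 2 * N := by
      have := dvd_sub h3 h1
      have e : x + N - (x - N) = 2 * N := by ring
      rwa [e] at this
    rcases hrp.dvd_or_dvd h4 with h5 | h5
    · have h6 : r ∣ 2 := by exact_mod_cast h5
      exact hrB (h6.trans h2)
    · exact hrB (hN r hr h5)
  have hcases : ∀ t, (r : ℤ) ∣ fac x N t → t = none ∨ t = some 0 := by
    intro t ht
    rcases t with _ | j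
    · left; rfl
    · fin_cases j
      · right; rfl
      · exact absurd ht hone
      · exact absurd ht hone
  rcases hcases t h with rfl | rfl <;> rcases hcases t' h' with rfl | rfl
  · rfl
  · exact (hboth h h').elim
  · exact (hboth h' h).elim
  · rfl

theorem part_congr {α β : Type} [DecidableEq α] [DecidableEq β] (d : ℤ) (B : ℕ) (τ : ℕ → α)
    (τ' : ℕ → β) (t : α) (t' : β) (h : ∀ r ∈ good d B, τ r = t ↔ τ' r = t') :
    part d B τ t = part d B τ' t' := by
  unfold part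
  congr 1
  ext r
  simp only [Finset.mem_filter]
  constructor
  · rintro ⟨h1, h3⟩
    exact ⟨h1, (h r h1).1 h3⟩
  · rintro ⟨h1, h3⟩
    exact ⟨h1, (h r h1).2 h3⟩

theorem pell_one (B : ℕ) (hB0 : B ≠ 0) (h2 : 2 ∣ B) :
    ∃ U : Finset (Bool → ℤ),
      (∀ u ∈ U, ∀ t, u t ≠ 0 ∧ ∀ r : ℕ, r.Prime → (r : ℤ) ∣ u t → r ∣ B) ∧
      ∀ d x y N : ℤ, Squarefree d → N ≠ 0 → (∀ r : ℕ, r.Prime → (r : ℤ) ∣ N → r ∣ B) →
        x ^ 2 - d * y ^ 2 = N ^ 2 →
        ∃ u ∈ U, ∃ τ : ℕ → Bool, ∀ r ∈ good d B,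
          (r : ℤ) ∣ (if τ r then x - N else x + N) ∧
          jacobiSym (u (τ r) * (part d B τ (!τ r) : ℤ)) r = 1 := by
  classical
  let V : Finset ℤ := (Finset.Icc (-(2 * (B : ℤ) * B)) (2 * B * B)).filter
    (fun x => x ≠ 0 ∧ ∀ r : ℕ, r.Prime → (r : ℤ) ∣ x → r ∣ B)
  have hV : ∀ x : ℤ, x ∈ V ↔ |x| ≤ 2 * B * B ∧ x ≠ 0 ∧
      ∀ r : ℕ, r.Prime → (r : ℤ) ∣ x → r ∣ B := by
    intro x
    simp only [V, Finset.mem_filter, Finset.mem_Icc, abs_le]
  have hB1 : (1 : ℤ) ≤ B := by exact_mod_cast Nat.one_le_iff_ne_zero.2 hB0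
  have hV1 : (1 : ℤ) ∈ V := by
    rw [hV]
    refine ⟨by rw [abs_one]; nlinarith, one_ne_zero, fun r hr h => ?_⟩
    have h1 : r ∣ 1 := by exact_mod_cast h
    exact absurd (Nat.dvd_one.1 h1) hr.one_lt.ne'
  refine ⟨Fintype.piFinset fun _ => V, fun u hu t => ?_, ?_⟩
  · exact ((hV _).1 (Fintype.mem_piFinset.1 hu t)).2
  intro d x y N hd hN0 hN heq
  have hd0 : d ≠ 0 := hd.ne_zero
  have hgood : ∀ r ∈ good d B, r.Prime ∧ r ∣ d.natAbs ∧ ¬ r ∣ B := by
    intro r hr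
    simp only [good, Finset.mem_filter, Nat.mem_primeFactors] at hr
    exact ⟨hr.1.1, hr.1.2.1, hr.2⟩
  have hpart1 : ∀ b : Bool, part d B (fun _ => b) (!b) = 1 := by
    intro b
    rw [part, Finset.filter_false_of_mem (fun r _ => by cases b <;> simp), Finset.prod_empty]
  by_cases hx1 : x = N
  · refine ⟨fun _ => 1, Fintype.mem_piFinset.2 fun _ => hV1, fun _ => true, fun r _ => ?_⟩
    refine ⟨by simp [hx1], ?_⟩
    rw [hpart1 true]
    simp
  by_cases hx2 : x = -N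
  · refine ⟨fun _ => 1, Fintype.mem_piFinset.2 fun _ => hV1, fun _ => false, fun r _ => ?_⟩
    refine ⟨by simp [hx2], ?_⟩
    rw [hpart1 false]
    simp
  -- the general case
  have hprod : d * y ^ 2 = ∏ t, fac x N t := by
    rw [prod_fac]
    linarith
  have hl : ∀ t, fac x N t ≠ 0 := by
    intro t
    rcases t with _ | j
    · exact sub_ne_zero.2 hx1
    · fin_cases j
      · show x + N ≠ 0
        intro h
        exact hx2 (by linarith)
      · exact one_ne_zero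
      · exact one_ne_zero
  let τ' : ℕ → Option (Fin 3) := fun r => if (r : ℤ) ∣ x - N then none else some 0
  have hτ' : ∀ r ∈ good d B, (r : ℤ) ∣ fac x N (τ' r) := by
    intro r hr
    obtain ⟨hrp, hrd, hrB⟩ := hgood r hr
    have hrp' : Prime (r : ℤ) := Nat.prime_iff_prime_int.1 hrp
    have h1 : (r : ℤ) ∣ (x - N) * (x + N) := by
      have e : (x - N) * (x + N) = d * y ^ 2 := by rw [hprod, prod_fac]; ring
      rw [e]
      exact (Int.natCast_dvd.2 hrd).mul_right _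
    by_cases h3 : (r : ℤ) ∣ x - N
    · simp only [τ', if_pos h3]
      exact h3
    · simp only [τ', if_neg h3]
      exact (hrp'.dvd_or_dvd h1).resolve_left h3
  have huniq : ∀ r : ℕ, r.Prime → ¬ r ∣ B → ∀ t t', (r : ℤ) ∣ fac x N t →
      (r : ℤ) ∣ fac x N t' → t = t' := fun r hr hrB t t' h h' => fac_unique h2 hN hr hrB h h'
  obtain ⟨u1, z1, h1, hu1, hu1B, hu1p⟩ := Descent_core hB0 hd (fac x N) hl hprod huniq τ' hτ' none
  obtain ⟨u2, z2, h3, hu2, hu2B, hu2p⟩ :=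
    Descent_core hB0 hd (fac x N) hl hprod huniq τ' hτ' (some 0)
  -- the squarefree part of `N`
  obtain ⟨N0, s, hsN, hN0sq⟩ := Nat.sq_mul_squarefree N.natAbs
  have hNn : N.natAbs ≠ 0 := Int.natAbs_ne_zero.2 hN0
  have hN00 : N0 ≠ 0 := hN0sq.ne_zero
  have hN0B : N0 ∣ B := by
    rw [← Nat.prod_primeFactors_of_squarefree hN0sq]
    refine Finset.prod_primes_dvd B ?_ ?_
    · intro r hr
      exact (Nat.prime_of_mem_primeFactors hr).prime
    · intro r hr
      refine hN r (Nat.prime_of_mem_primeFactors hr) ?_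
      rw [Int.natCast_dvd, ← hsN]
      exact (Nat.dvd_of_mem_primeFactors hr).mul_left _
  obtain ⟨N1, hN1def⟩ : ∃ N1 : ℤ, N1 = N.sign * N0 := ⟨_, rfl⟩
  have hNs : N = N1 * (s : ℤ) ^ 2 := by
    have h5 : N = N.sign * (N.natAbs : ℤ) := (Int.sign_mul_natAbs N).symm
    rw [← hsN] at h5
    push_cast at h5
    rw [hN1def]
    have h6 : N.sign * ((s : ℤ) ^ 2 * (N0 : ℤ)) = N.sign * N0 * (s : ℤ) ^ 2 := by ring
    rw [← h6]
    exact h5
  have hsgn : N.sign = 1 ∨ N.sign = -1 := by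
    rcases lt_or_gt_of_ne hN0 with h | h
    · exact Or.inr (Int.sign_eq_neg_one_of_neg h)
    · exact Or.inl (Int.sign_eq_one_of_pos h)
  have hN1abs : |N1| = N0 := by
    rw [hN1def]
    rcases hsgn with h | h <;> rw [h] <;> simp
  have hN1le : |N1| ≤ B := by
    rw [hN1abs]
    exact_mod_cast Nat.le_of_dvd (Nat.pos_of_ne_zero hB0) hN0B
  have hN1ne : N1 ≠ 0 := by
    intro h
    rw [h, abs_zero] at hN1abs
    exact hN00 (by exact_mod_cast hN1abs.symm)
  have hN1p : ∀ r : ℕ, r.Prime → (r : ℤ) ∣ N1 → r ∣ B := by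
    intro r hr h
    refine hN r hr ?_
    rw [hNs]
    exact h.mul_right _
  have hmem : ∀ c v : ℤ, |c| = 2 → (∀ r : ℕ, r.Prime → (r : ℤ) ∣ c → r ∣ B) → v ≠ 0 → |v| ≤ B →
      (∀ r : ℕ, r.Prime → (r : ℤ) ∣ v → r ∣ B) → c * N1 * v ∈ V := by
    intro c v hc hcp hv hvB hvp
    rw [hV]
    have hc0 : c ≠ 0 := by
      intro h
      rw [h, abs_zero] at hc
      omega
    refine ⟨?_, mul_ne_zero (mul_ne_zero hc0 hN1ne) hv, fun r hr h => ?_⟩
    · rw [abs_mul, abs_mul, hc]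
      have h5 : (0 : ℤ) ≤ |N1| := abs_nonneg _
      have h6 : (0 : ℤ) ≤ |v| := abs_nonneg _
      have h7 : |N1| * |v| ≤ B * B := mul_le_mul hN1le hvB h6 (by linarith)
      nlinarith
    · have hrp' : Prime (r : ℤ) := Nat.prime_iff_prime_int.1 hr
      rcases hrp'.dvd_or_dvd h with h5 | h5
      · rcases hrp'.dvd_or_dvd h5 with h6 | h6
        · exact hcp r hr h6
        · exact hN1p r hr h6
      · exact hvp r hr h5
  have h2p : ∀ r : ℕ, r.Prime → (r : ℤ) ∣ 2 → r ∣ B := by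
    intro r _ h
    have h5 : r ∣ 2 := by exact_mod_cast h
    exact h5.trans h2
  refine ⟨fun b => if b then 2 * N1 * u2 else -2 * N1 * u1, Fintype.mem_piFinset.2 fun b => ?_,
    fun r => decide ((r : ℤ) ∣ x - N), fun r hr => ?_⟩
  · cases b
    · exact hmem (-2) u1 (by norm_num) (fun r hr h => h2p r hr (by simpa using h)) hu1 hu1B hu1p
    · exact hmem 2 u2 (by norm_num) h2p hu2 hu2B hu2p
  obtain ⟨hrp, hrd, hrB⟩ := hgood r hr
  have hrp' : Prime (r : ℤ) := Nat.prime_iff_prime_int.1 hrp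
  have hr2N : ¬ (r : ℤ) ∣ 2 * N := by
    intro h
    rcases hrp'.dvd_or_dvd h with h5 | h5
    · exact hrB (h2p r hrp h5)
    · exact hrB (hN r hrp h5)
  have hpn : part d B τ' none = part d B (fun r => decide ((r : ℤ) ∣ x - N)) true := by
    apply part_congr
    intro p _
    by_cases h : (p : ℤ) ∣ x - N <;> simp [τ', h]
  have hps : part d B τ' (some 0) = part d B (fun r => decide ((r : ℤ) ∣ x - N)) false := by
    apply part_congr
    intro p _
    by_cases h : (p : ℤ) ∣ x - N <;> simp [τ', h]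
  by_cases hdv : (r : ℤ) ∣ x - N
  · have hdec : decide ((r : ℤ) ∣ x - N) = true := decide_eq_true hdv
    simp only [hdec, if_true, Bool.not_true]
    refine ⟨hdv, ?_⟩
    rw [← hps]
    refine Descent_jac hrp (m := z2 * s) (n := 2 * N) ?_ hr2N
    have e : 2 * N1 * u2 * (part d B τ' (some 0) : ℤ) * (z2 * s) ^ 2 - (2 * N) ^ 2 =
        2 * (N1 * (s : ℤ) ^ 2) * (u2 * (part d B τ' (some 0) : ℤ) * z2 ^ 2) - (2 * N) ^ 2 := by ring
    rw [e, ← h3, ← hNs]
    have e2 : 2 * N * fac x N (some 0) - (2 * N) ^ 2 = (x - N) * (2 * N) := by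
      show 2 * N * (x + N) - (2 * N) ^ 2 = (x - N) * (2 * N)
      ring
    rw [e2]
    exact hdv.mul_right _
  · have hdec : decide ((r : ℤ) ∣ x - N) = false := decide_eq_false hdv
    have hτr : τ' r = some 0 := by simp [τ', hdv]
    have hdv2 : (r : ℤ) ∣ x + N := by
      have := hτ' r hr
      rw [hτr] at this
      exact this
    simp only [hdec, Bool.not_false]
    refine ⟨by simpa using hdv2, ?_⟩
    rw [← hpn]
    simp only [Bool.false_eq_true, if_false]
    refine Descent_jac hrp (m := z1 * s) (n := 2 * N) ?_ hr2N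
    have e : -2 * N1 * u1 * (part d B τ' none : ℤ) * (z1 * s) ^ 2 - (2 * N) ^ 2 =
        -2 * (N1 * (s : ℤ) ^ 2) * (u1 * (part d B τ' none : ℤ) * z1 ^ 2) - (2 * N) ^ 2 := by ring
    rw [e, ← h1, ← hNs]
    have e2 : -2 * N * fac x N none - (2 * N) ^ 2 = (x + N) * (-2 * N) := by
      show -2 * N * (x - N) - (2 * N) ^ 2 = (x + N) * (-2 * N)
      ring
    rw [e2]
    exact hdv2.mul_right _

end Pool.Agent.Helper36.LV
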