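import Pool.Agent.Helper36.TW.Fam

/-!
# Integral coordinates and reduction over a product of elliptic curves and norm tori

Variables: `ζ s`; `(p i, q i, w i)` of weights `1, 1, 2` in the `i`-th grading; `(u j, v j)` without weight.
-/

set_option autoImplicit false

namespace Pool.Agent.Helper36.LV

open Finset Pool.Agent.Helper11.TW

/-- the variables -/
abbrev MVars (n m : ℕ) (σ : Type) : Type := σ ⊕ ((Fin n × Fin 3) ⊕ (Fin m × Fin 2))

/-- `G` is homogeneous in `ζ` and multihomogeneous in the first two blocks of variables; there is no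
condition on the variables `u j`, `v j`. -/
def MMulti {n m : ℕ} {σ : Type} [Fintype σ] (k : σ → Fin n → ℕ)
    (G : MvPolynomial (MVars n m σ) ℤ) : Prop :=
  ∃ (D : ℕ) (δ : Fin n → ℕ), ∀ μ ∈ G.support, (∑ s, μ (Sum.inl s) = D) ∧
    ∀ i, (∑ s, μ (Sum.inl s) * k s i) + μ (Sum.inr (Sum.inl (i, 0))) +
      μ (Sum.inr (Sum.inl (i, 1))) + 2 * μ (Sum.inr (Sum.inl (i, 2))) = δ i

/-- the values of the variables -/
def mval {n m : ℕ} {σ : Type} {R : Type*} (ζ : σ → R) (x : Fin n × Fin 3 → R)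
    (y : Fin m × Fin 2 → R) : MVars n m σ → R := Sum.elim ζ (Sum.elim x y)

/-- The point satisfies all equations in `I`. -/
def MSol {n m : ℕ} {σ : Type} {R : Type*} [CommRing R] (I : Set (MvPolynomial (MVars n m σ) ℤ))
    (ζ : σ → R) (x : Fin n × Fin 3 → R) (y : Fin m × Fin 2 → R) : Prop :=
  ∀ G ∈ I, MvPolynomial.aeval (mval ζ x y) G = 0

/-- There is no point modulo `r` over the branch point `(ε, η)` (with arbitrary `w`, `v`). -/
def MNoPoint {n m : ℕ} {σ : Type} (a : Fin n → Fin 3 → ℤ)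
    (I : Set (MvPolynomial (MVars n m σ) ℤ)) (ε : Fin n → Option (Fin 3)) (η : Fin m → Bool)
    (r : ℕ) : Prop :=
  ∀ (ζ : σ → ZMod r) (w : Fin n → ZMod r) (v : Fin m → ZMod r),
    MSol I ζ (fun j => ![((rep (a j.1) (ε j.1)).1 : ZMod r), ((rep (a j.1) (ε j.1)).2 : ZMod r),
      w j.1] j.2) (fun j => ![if η j.1 then 1 else -1, v j.1] j.2) → ζ = 0

theorem mprod_scale {n m : ℕ} {σ : Type} [Fintype σ] {R : Type*} [CommRing R] (k : σ → Fin n → ℕ)
    (ζ : σ → R) (x : Fin n × Fin 3 → R) (y : Fin m × Fin 2 → R) (c : R) (lam : Fin n → R)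
    (μ : MVars n m σ →₀ ℕ) {D : ℕ} {δ : Fin n → ℕ} (h1 : ∑ s, μ (Sum.inl s) = D)
    (h2 : ∀ i, (∑ s, μ (Sum.inl s) * k s i) + μ (Sum.inr (Sum.inl (i, 0))) +
      μ (Sum.inr (Sum.inl (i, 1))) + 2 * μ (Sum.inr (Sum.inl (i, 2))) = δ i) :
    ∏ t, mval (fun s => c * (∏ i, lam i ^ k s i) * ζ s)
        (fun j : Fin n × Fin 3 => ![lam j.1, lam j.1, lam j.1 ^ 2] j.2 * x j) y t ^ μ t =
      c ^ D * (∏ i, lam i ^ δ i) * ∏ t, mval ζ x y t ^ μ t := by
  have e1 : ∀ (f : MVars n m σ → R), ∏ t, f t = (∏ s, f (Sum.inl s)) *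
      ((∏ i, f (Sum.inr (Sum.inl (i, 0))) * f (Sum.inr (Sum.inl (i, 1))) *
        f (Sum.inr (Sum.inl (i, 2)))) * ∏ j, f (Sum.inr (Sum.inr j))) := by
    intro f
    rw [Fintype.prod_sum_type, Fintype.prod_sum_type, Fintype.prod_prod_type]
    congr 2
    refine Finset.prod_congr rfl fun i _ => ?_
    rw [Fin.prod_univ_three]
  rw [e1, e1]
  have e0 : ∀ i, (![lam i, lam i, lam i ^ 2] : Fin 3 → R) 2 = lam i ^ 2 := fun _ => rfl
  simp only [mval, Sum.elim_inl, Sum.elim_inr, Matrix.cons_val_zero, Matrix.cons_val_one, e0]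
  simp only [mul_pow, Finset.prod_mul_distrib]
  have e2 : ∏ s, c ^ μ (Sum.inl s) = c ^ D := by
    rw [Finset.prod_pow_eq_pow_sum, h1]
  have e3 : ∏ i, lam i ^ δ i = (∏ s, (∏ i, lam i ^ k s i) ^ μ (Sum.inl s)) *
      (∏ i, lam i ^ μ (Sum.inr (Sum.inl (i, 0)))) * (∏ i, lam i ^ μ (Sum.inr (Sum.inl (i, 1)))) *
      (∏ i, (lam i ^ 2) ^ μ (Sum.inr (Sum.inl (i, 2)))) := by
    have f1 : ∏ s, (∏ i, lam i ^ k s i) ^ μ (Sum.inl s) =
        ∏ i, lam i ^ (∑ s, μ (Sum.inl s) * k s i) := by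
      rw [Finset.prod_congr rfl fun s _ => (Finset.prod_pow _ _ _).symm, Finset.prod_comm]
      refine Finset.prod_congr rfl fun i _ => ?_
      rw [← Finset.prod_pow_eq_pow_sum]
      refine Finset.prod_congr rfl fun s _ => ?_
      rw [← pow_mul, mul_comm]
    have f2 : ∏ i, (lam i ^ 2) ^ μ (Sum.inr (Sum.inl (i, 2))) =
        ∏ i, lam i ^ (2 * μ (Sum.inr (Sum.inl (i, 2)))) := by
      refine Finset.prod_congr rfl fun i _ => ?_
      rw [← pow_mul]
    rw [f1, f2, ← Finset.prod_mul_distrib, ← Finset.prod_mul_distrib,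
      ← Finset.prod_mul_distrib]
    refine Finset.prod_congr rfl fun i _ => ?_
    rw [← pow_add, ← pow_add, ← pow_add, ← h2 i]
  rw [e2, e3]
  ring

/-- Multihomogeneity: scaling of the coordinates. -/
theorem msol_scale {n m : ℕ} {σ : Type} [Fintype σ] {R : Type*} [CommRing R] (k : σ → Fin n → ℕ)
    (I : Set (MvPolynomial (MVars n m σ) ℤ)) (hI : ∀ G ∈ I, MMulti k G)
    (ζ : σ → R) (x : Fin n × Fin 3 → R) (y : Fin m × Fin 2 → R) (c : R) (lam : Fin n → R)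
    (h : MSol I ζ x y) :
    MSol I (fun s => c * (∏ i, lam i ^ k s i) * ζ s)
      (fun j => ![lam j.1, lam j.1, lam j.1 ^ 2] j.2 * x j) y := by
  intro G hG
  obtain ⟨D, δ, hδ⟩ := hI G hG
  have h0 := h G hG
  rw [MvPolynomial.aeval_def, MvPolynomial.eval₂_eq'] at h0 ⊢
  have h1 : ∀ μ ∈ G.support, (algebraMap ℤ R) (MvPolynomial.coeff μ G) *
      ∏ t, mval (fun s => c * (∏ i, lam i ^ k s i) * ζ s)
        (fun j : Fin n × Fin 3 => ![lam j.1, lam j.1, lam j.1 ^ 2] j.2 * x j) y t ^ μ t =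
      (c ^ D * ∏ i, lam i ^ δ i) * ((algebraMap ℤ R) (MvPolynomial.coeff μ G) *
        ∏ t, mval ζ x y t ^ μ t) := by
    intro μ hμ
    rw [mprod_scale k ζ x y c lam μ (hδ μ hμ).1 (hδ μ hμ).2]
    ring
  rw [Finset.sum_congr rfl h1, ← Finset.mul_sum, h0, mul_zero]

/-- reduction modulo `r` of `r`-integral rational numbers -/
theorem red (r : ℕ) [Fact r.Prime] {τ : Type} (z : τ → ℚ) (hz : ∀ t, ¬ r ∣ (z t).den) :
    ∃ zb : τ → ZMod r, (∀ t, zb t * ((z t).den : ZMod r) = ((z t).num : ZMod r)) ∧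
      ∀ G : MvPolynomial τ ℤ, MvPolynomial.aeval z G = 0 → MvPolynomial.aeval zb G = 0 := by
  let Z : τ → ℤ_[r] := fun t => ⟨((z t : ℚ) : ℚ_[r]), Padic.norm_rat_le_one (hz t)⟩
  have hZ : ∀ t, ((Z t : ℤ_[r]) : ℚ_[r]) = ((z t : ℚ) : ℚ_[r]) := fun _ => rfl
  refine ⟨fun t => PadicInt.toZMod (Z t), fun t => ?_, fun G hG => ?_⟩
  · have h1 : Z t * ((z t).den : ℤ_[r]) = ((z t).num : ℤ_[r]) := by
      apply Subtype.coe_injective
      show ((Z t * ((z t).den : ℤ_[r]) : ℤ_[r]) : ℚ_[r]) = (((z t).num : ℤ_[r]) : ℚ_[r])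
      rw [PadicInt.coe_mul, hZ, PadicInt.coe_natCast, PadicInt.coe_intCast]
      have h2 : (z t) * (z t).den = (z t).num := Rat.mul_den_eq_num _
      exact_mod_cast congrArg (fun q : ℚ => (q : ℚ_[r])) h2
    have h2 := congrArg (PadicInt.toZMod (p := r)) h1
    rw [map_mul, map_natCast, map_intCast] at h2
    exact h2
  · have h1 : MvPolynomial.aeval Z G = 0 := by
      apply Subtype.coe_injective
      have h2 : (PadicInt.Coe.ringHom (p := r)) (MvPolynomial.aeval Z G) =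
          MvPolynomial.aeval (fun t => ((z t : ℚ) : ℚ_[r])) G := by
        rw [MvPolynomial.aeval_def, MvPolynomial.aeval_def, MvPolynomial.eval₂_comp_left]
        congr 1
      have h3 : (algebraMap ℚ ℚ_[r]) (MvPolynomial.aeval z G) =
          MvPolynomial.aeval (fun t => ((z t : ℚ) : ℚ_[r])) G := by
        rw [MvPolynomial.aeval_def, MvPolynomial.aeval_def, MvPolynomial.eval₂_comp_left]
        congr 1
      rw [hG, map_zero] at h3
      show ((MvPolynomial.aeval Z G : ℤ_[r]) : ℚ_[r]) = ((0 : ℤ_[r]) : ℚ_[r])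
      rw [PadicInt.coe_zero]
      exact h2.trans h3.symm
    have h2 : (PadicInt.toZMod (p := r)) (MvPolynomial.aeval Z G) =
        MvPolynomial.aeval (fun t => PadicInt.toZMod (Z t)) G := by
      rw [MvPolynomial.aeval_def, MvPolynomial.aeval_def, MvPolynomial.eval₂_comp_left]
      congr 1
      exact RingHom.ext_int _ _
    rw [← h2, h1, map_zero]

/-- A rational point has integral primitive coordinates `ζ`, `p`, `q`, `w`; the coordinates `u`, `v`
are unchanged. -/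
theorem mexists_integral {n m : ℕ} {σ : Type} [Fintype σ] (a : Fin n → Fin 3 → ℤ)
    (k : σ → Fin n → ℕ) (I : Set (MvPolynomial (MVars n m σ) ℤ)) (hI : ∀ G ∈ I, MMulti k G)
    (d : ℤ) (hd : Squarefree d) (ζ : σ → ℚ) (hζ : ζ ≠ 0) (x : Fin n × Fin 3 → ℚ)
    (y : Fin m × Fin 2 → ℚ) (hpq : ∀ i, x (i, 0) ≠ 0 ∨ x (i, 1) ≠ 0)
    (hw : ∀ i, (d : ℚ) * x (i, 2) ^ 2 = x (i, 1) * (x (i, 0) - a i 0 * x (i, 1)) *
      (x (i, 0) - a i 1 * x (i, 1)) * (x (i, 0) - a i 2 * x (i, 1)))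
    (h : MSol I ζ x y) :
    ∃ (ζ' : σ → ℤ) (x' : Fin n × Fin 3 → ℤ),
      MSol I (fun s => (ζ' s : ℚ)) (fun j => (x' j : ℚ)) y ∧
      (∀ i, IsCoprime (x' (i, 0)) (x' (i, 1)) ∧
        d * x' (i, 2) ^ 2 = quartic (a i) (x' (i, 0)) (x' (i, 1))) ∧
      ∀ r : ℕ, r.Prime → ∃ s, ¬ (r : ℤ) ∣ ζ' s := by
  choose lam P Q hlam hP hQ hcop using fun i =>
    Pool.Agent.Helper36.TW.exists_coprime (x (i, 0)) (x (i, 1)) (hpq i)
  have hquart : ∀ i, (d : ℚ) * (lam i ^ 2 * x (i, 2)) ^ 2 = (quartic (a i) (P i) (Q i) : ℤ) := by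
    intro i
    unfold quartic
    push_cast
    rw [← hP i, ← hQ i]
    have := hw i
    calc (d : ℚ) * (lam i ^ 2 * x (i, 2)) ^ 2 = lam i ^ 4 * ((d : ℚ) * x (i, 2) ^ 2) := by ring
      _ = _ := by rw [this]; ring
  choose W hW using fun i => Pool.Agent.Helper36.TW.integral_of_sq hd (hquart i)
  have h1 := msol_scale k I hI ζ x y 1 lam h
  have hne : (fun s => (1 : ℚ) * (∏ i, lam i ^ k s i) * ζ s) ≠ 0 := by
    intro h0
    apply hζ
    funext s
    have := congrFun h0 s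
    have h3 : (∏ i, lam i ^ k s i) ≠ 0 :=
      Finset.prod_ne_zero_iff.2 fun i _ => pow_ne_zero _ (hlam i)
    simpa [h3] using this
  obtain ⟨c, z, hc, hz, hr⟩ := Pool.Agent.Helper36.TW.exists_primitive _ hne
  have h2 := msol_scale k I hI _ _ y c (fun _ => 1) h1
  refine ⟨z, fun j => ![P j.1, Q j.1, W j.1] j.2, ?_, fun i => ⟨hcop i, ?_⟩, hr⟩
  · have e1 : (fun s => (z s : ℚ)) =
        fun s => c * (∏ i : Fin n, (1 : ℚ) ^ k s i) * ((1 : ℚ) * (∏ i, lam i ^ k s i) * ζ s) := by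
      funext s
      rw [← hz s]
      simp
    have e2 : (fun j : Fin n × Fin 3 => ((![P j.1, Q j.1, W j.1] j.2 : ℤ) : ℚ)) = fun j =>
        ![(1 : ℚ), 1, 1 ^ 2] j.2 * (![lam j.1, lam j.1, lam j.1 ^ 2] j.2 * x j) := by
      funext j
      obtain ⟨i, b⟩ := j
      fin_cases b
      · simp [← hP i]
      · simp [← hQ i]
      · simp [hW i]
    rw [e1, e2]
    exact h2
  · have h3 := hquart i
    rw [← hW i] at h3
    have h4 : d * W i ^ 2 = quartic (a i) (P i) (Q i) := by exact_mod_cast h3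
    simpa using h4

/-- If the point reduces modulo `r` to the branch point `(ε, η)`, there is a point modulo `r` over
`(ε, η)`. -/
theorem mnot_noPoint {n m : ℕ} {σ : Type} [Fintype σ] (a : Fin n → Fin 3 → ℤ)
    (k : σ → Fin n → ℕ) (I : Set (MvPolynomial (MVars n m σ) ℤ)) (hI : ∀ G ∈ I, MMulti k G)
    (ζ : σ → ℤ) (x : Fin n × Fin 3 → ℤ) (y : Fin m × Fin 2 → ℚ)
    (h : MSol I (fun s => (ζ s : ℚ)) (fun j => (x j : ℚ)) y)
    (hpq : ∀ i, IsCoprime (x (i, 0)) (x (i, 1))) (r : ℕ) (hr : r.Prime)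
    (hy : ∀ j, ¬ r ∣ (y j).den) (hζ : ∃ s, ¬ (r : ℤ) ∣ ζ s) (ε : Fin n → Option (Fin 3))
    (hε : ∀ i, (r : ℤ) ∣ lin (a i) (ε i) (x (i, 0)) (x (i, 1))) (η : Fin m → Bool)
    (hη : ∀ j, (r : ℤ) ∣ (y (j, 0)).num - (if η j then 1 else -1) * ((y (j, 0)).den : ℤ)) :
    ¬ MNoPoint a I ε η r := by
  have : Fact r.Prime := ⟨hr⟩
  intro hno
  obtain ⟨zb, hzb, hG⟩ := red r (mval (fun s => (ζ s : ℚ)) (fun j => (x j : ℚ)) y) (by
    intro t
    rcases t with s | j | j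
    · show ¬ r ∣ ((ζ s : ℚ)).den
      rw [Rat.den_intCast]
      exact fun h => hr.one_lt.ne' (Nat.dvd_one.1 h)
    · show ¬ r ∣ ((x j : ℚ)).den
      rw [Rat.den_intCast]
      exact fun h => hr.one_lt.ne' (Nat.dvd_one.1 h)
    · exact hy j)
  have hz1 : ∀ s, zb (Sum.inl s) = (ζ s : ZMod r) := by
    intro s
    have h1 := hzb (Sum.inl s)
    simp only [mval, Sum.elim_inl, Rat.den_intCast, Rat.num_intCast, Nat.cast_one, mul_one] at h1
    exact h1
  have hz2 : ∀ j, zb (Sum.inr (Sum.inl j)) = (x j : ZMod r) := by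
    intro j
    have h1 := hzb (Sum.inr (Sum.inl j))
    simp only [mval, Sum.elim_inl, Sum.elim_inr, Rat.den_intCast, Rat.num_intCast, Nat.cast_one,
      mul_one] at h1
    exact h1
  have hz3 : ∀ j, zb (Sum.inr (Sum.inr (j, 0))) = if η j then 1 else -1 := by
    intro j
    have h1 := hzb (Sum.inr (Sum.inr (j, 0)))
    simp only [mval, Sum.elim_inr] at h1
    have h2 := (ZMod.intCast_zmod_eq_zero_iff_dvd _ r).2 (hη j)
    push_cast at h2
    have h3 : ((y (j, 0)).den : ZMod r) ≠ 0 := by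
      intro h4
      exact hy (j, 0) ((ZMod.natCast_eq_zero_iff _ _).1 h4)
    have h4 : (zb (Sum.inr (Sum.inr (j, 0))) - if η j then 1 else -1) *
        ((y (j, 0)).den : ZMod r) = 0 := by
      rw [sub_mul, h1]
      exact h2
    exact sub_eq_zero.1 ((mul_eq_zero.1 h4).resolve_right h3)
  have h1 : MSol I (fun s => (ζ s : ZMod r)) (fun j => (x j : ZMod r))
      (fun j => zb (Sum.inr (Sum.inr j))) := by
    intro G hGI
    have h2 := hG G (h G hGI)
    rw [← h2]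
    congr 2
    funext t
    rcases t with s | j | j
    · exact (hz1 s).symm
    · exact (hz2 j).symm
    · rfl
  choose u hu0 hu1 hu2 using fun i => Pool.Agent.Helper36.TW.exists_unit_scale (a i)
    (x (i, 0)) (x (i, 1)) (hpq i) r hr (ε i) (hε i)
  have h3 := msol_scale k I hI _ _ _ 1 u h1
  have h4 := hno (fun s => 1 * (∏ i, u i ^ k s i) * (ζ s : ZMod r))
    (fun i => u i ^ 2 * (x (i, 2) : ZMod r)) (fun j => zb (Sum.inr (Sum.inr (j, 1)))) (by
      intro G hG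
      rw [← h3 G hG]
      congr 2
      funext t
      rcases t with s | ⟨i, j⟩ | ⟨i, j⟩
      · rfl
      · fin_cases j
        · exact (hu1 i).symm
        · exact (hu2 i).symm
        · rfl
      · fin_cases j
        · exact (hz3 i).symm
        · rfl)
  obtain ⟨s, hs⟩ := hζ
  have h5 := congrFun h4 s
  have h6 : (∏ i, u i ^ k s i) ≠ 0 := Finset.prod_ne_zero_iff.2 fun i _ => pow_ne_zero _ (hu0 i)
  have h7 : (ζ s : ZMod r) ≠ 0 := fun h => hs ((ZMod.intCast_zmod_eq_zero_iff_dvd _ r).1 h)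
  simp [h6, h7] at h5

end Pool.Agent.Helper36.LV
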